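import Pool.Agent.Lib.MP_d55432_al.G2.Iface

/-!
# G2, module MAIN: the images of homogeneous Lie polynomials on `g2`

Assembly (helper47). The general description of the images of homogeneous Lie polynomials
(`images_iff`, `homogeneous_images`, `dense_images_iff`) is combined with the modules ONLY (shape of
the images), CONS (the sets `RS` are constructible stable cones), EXIST and LIFT (equivariant maps
with values in the closure of a ray) and NIL (nilpotent orbits).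
-/

namespace Pool.Agent.Lib.MP_d55432_al.G2.H47

open Matrix LieAlgebra Pool.Agent.Lib.MP_d55432_al.G2

attribute [local instance 100] LieRing.ofAssociativeRing

/-- The description of the images of homogeneous Lie polynomials by equivariant maps. -/
theorem cones {K : Type*} [Field K] [IsAlgClosed K] [CharZero K] {L : Type*} [LieRing L]
    [LieAlgebra K L] [FiniteDimensional K L] [LieAlgebra.IsSimple K L] (S : Set L) :
    (∃ (m d : ℕ) (p : FreeLieAlgebra K (Fin m)), IsHomogeneousLie d p ∧ S = lieImage L p) ↔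
      ((0 : L) ∈ S ∧ (∀ (t : K), ∀ x ∈ S, t • x ∈ S) ∧ (∀ φ : L ≃ₗ⁅K⁆ L, ∀ x ∈ S, φ x ∈ S) ∧
        BoolComb (PolyOn K L : Set (L → K)) S ∧
        ∃ (m b : ℕ) (f : (Fin m → L) → L), 0 < b ∧ IsPolyMap K f ∧ IsAutEquivariant K f ∧
          (∀ (t : K) (a : Fin m → L), f (t • a) = t ^ b • f a) ∧ S ⊆ Set.range f ∧
          ∀ g ∈ PolyOn K L, (∀ y ∈ S, g y = 0) → ∀ y ∈ Set.range f, g y = 0) := by
  constructor
  · intro h
    obtain ⟨h0, h1, h2, h3, m, d, p, hp, h4, h5⟩ := (images_iff S).1 h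
    obtain ⟨n, b, f, hb, hf, hf', hf'', hpf⟩ := (homogeneous_images (lieImage L p)).1
      ⟨m, d, p, hp, rfl⟩
    refine ⟨h0, h1, h2, h3, n, b, f, hb, hf, hf', hf'', ?_, ?_⟩
    · rw [← hpf]
      exact h4
    · rw [← hpf]
      exact h5
  · rintro ⟨h0, h1, h2, h3, n, b, f, hb, hf, hf', hf'', h4, h5⟩
    obtain ⟨m, d, p, hp, hpf⟩ := (homogeneous_images (Set.range f)).2
      ⟨n, b, f, hb, hf, hf', hf'', rfl⟩
    refine (images_iff S).2 ⟨h0, h1, h2, h3, m, d, p, hp, ?_, ?_⟩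
    · rw [← hpf]
      exact h4
    · rw [← hpf]
      exact h5

section cj

variable {K : Type*} [Field K]

theorem cj_symm {X Y : M7 K} (h : Cj X Y) : Cj Y X := by
  obtain ⟨g, k, H, rfl⟩ := h
  refine ⟨k, g, H.symm, ?_⟩
  calc X = (k * g) * X * (k * g) := by rw [H.2.1, Matrix.one_mul, Matrix.mul_one]
    _ = k * (g * X * k) * g := by simp only [Matrix.mul_assoc]

theorem cj_trans {X Y Z : M7 K} (h : Cj X Y) (h' : Cj Y Z) : Cj X Z := by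
  obtain ⟨g, k, H, rfl⟩ := h
  obtain ⟨g', k', H', rfl⟩ := h'
  exact ⟨g' * g, k * k', H'.mul H, by simp only [Matrix.mul_assoc]⟩

theorem cj_smul (c : K) {X Y : M7 K} (h : Cj X Y) : Cj (c • X) (c • Y) := by
  obtain ⟨g, k, H, rfl⟩ := h
  exact ⟨g, k, H, by rw [Matrix.mul_smul, Matrix.smul_mul]⟩

/-- The four classes of nilpotent elements. -/
theorem cls (hNIL : NIL_S K) {X : g2 K} (hX : X ≠ 0) (hX7 : X.1 ^ 7 = 0) :
    ∃ N : M7 K, Cj N X.1 ∧ ((N = N1 K ∧ (X.1 * X.1).rank = 0) ∨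
      (N = N2 K ∧ (X.1 * X.1).rank = 1) ∨ (N = N3 K ∧ (X.1 * X.1).rank = 2) ∨
      (N = N4 K ∧ (X.1 * X.1).rank = 5)) := by
  rcases hNIL.1 X.1 X.2 hX7 (fun h0 => hX (Subtype.ext h0)) with h | h | h | h
  · exact ⟨N1 K, h.2, Or.inl ⟨rfl, h.1⟩⟩
  · exact ⟨N2 K, h.2, Or.inr (Or.inl ⟨rfl, h.1⟩)⟩
  · exact ⟨N3 K, h.2, Or.inr (Or.inr (Or.inl ⟨rfl, h.1⟩))⟩
  · exact ⟨N4 K, h.2, Or.inr (Or.inr (Or.inr ⟨rfl, h.1⟩))⟩

theorem cls_eq {α : Type*} {a b c d N N' : α} {r : ℕ}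
    (h : (N = a ∧ r = 0) ∨ (N = b ∧ r = 1) ∨ (N = c ∧ r = 2) ∨ (N = d ∧ r = 5))
    (h' : (N' = a ∧ r = 0) ∨ (N' = b ∧ r = 1) ∨ (N' = c ∧ r = 2) ∨ (N' = d ∧ r = 5)) :
    N = N' := by
  rcases h with ⟨rfl, rfl⟩ | ⟨rfl, rfl⟩ | ⟨rfl, rfl⟩ | ⟨rfl, rfl⟩ <;>
  rcases h' with ⟨rfl, h⟩ | ⟨rfl, h⟩ | ⟨rfl, h⟩ | ⟨rfl, h⟩ <;>
  first
  | rfl
  | exact absurd h (by decide)

/-- Nilpotent elements with the same rank of the square are conjugate. -/
theorem nil_conj (hNIL : NIL_S K) {X Y : g2 K} (hX : X ≠ 0) (hX7 : X.1 ^ 7 = 0) (hY : Y ≠ 0)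
    (hY7 : Y.1 ^ 7 = 0) (h : (X.1 * X.1).rank = (Y.1 * Y.1).rank) : Cj X.1 Y.1 := by
  obtain ⟨N, hN, hr⟩ := cls hNIL hX hX7
  obtain ⟨N', hN', hr'⟩ := cls hNIL hY hY7
  rw [← h] at hr'
  have e : N = N' := cls_eq hr hr'
  rw [← e] at hN'
  exact cj_trans (cj_symm hN) hN'

/-- The set of values of a covariant is stable under conjugation. -/
theorem cov_cj {n d : ℕ} {Ψ : (Fin n → V7 K) → K → g2 K} (hΨ : IsCov d Ψ) {X Y : g2 K}
    (hX : ∃ a y, X = Ψ a y) (h : Cj X.1 Y.1) : ∃ a y, Y = Ψ a y := by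
  obtain ⟨a, y, rfl⟩ := hX
  obtain ⟨g, k, H, hY⟩ := h
  exact ⟨fun i => g *ᵥ a i, y, Subtype.ext (by rw [hΨ.equiv g k H, hY])⟩

/-- The set of values of a covariant is stable under scalars, over an algebraically closed
field. -/
theorem cov_smul [IsAlgClosed K] {n d : ℕ} {Ψ : (Fin n → V7 K) → K → g2 K} (hΨ : IsCov d Ψ)
    {X : g2 K} (hX : ∃ a y, X = Ψ a y) (c : K) : ∃ a y, c • X = Ψ a y := by
  obtain ⟨a, y, rfl⟩ := hX
  obtain ⟨t, ht⟩ := IsAlgClosed.exists_pow_nat_eq c hΨ.pos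
  exact ⟨fun i => t • a i, t * y, by rw [hΨ.homog, ht]⟩

/-- The set `RS l m T` consists of values of the covariant given by EXIST. -/
theorem rs_subset [IsAlgClosed K] (hNIL : NIL_S K) {l m : K} {T : Set ℕ}
    (hT : T ⊆ {0, 1, 2, 5}) (hT5 : 5 ∈ T → Reg l m) {n d : ℕ}
    {Ψ : (Fin n → V7 K) → K → g2 K} (hΨ : IsCov d Ψ)
    (hex : ∃ a y, ∃ s : K, s ≠ 0 ∧ Cj (s • TT l m) (Ψ a y).1)
    (hrk : ∀ r ∈ ({0, 1, 2, 5} : Set ℕ), (r = 5 → Reg l m) →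
      ∃ a y, Ψ a y ≠ 0 ∧ (Ψ a y).1 ^ 7 = 0 ∧ ((Ψ a y).1 * (Ψ a y).1).rank = r) :
    RS K l m T ⊆ {X | ∃ a y, X = Ψ a y} := by
  rintro X (rfl | ⟨s, hs, hc⟩ | ⟨hX, hX7, hr⟩)
  · obtain ⟨a, y, -⟩ := hex
    obtain ⟨a', y', h'⟩ := cov_smul hΨ ⟨a, y, rfl⟩ 0
    exact ⟨a', y', by rw [← h', zero_smul]⟩
  · obtain ⟨a, y, s₀, hs₀, hc₀⟩ := hex
    refine cov_cj hΨ (cov_smul hΨ ⟨a, y, rfl⟩ (s / s₀)) ?_
    have h1 : Cj ((s / s₀) • s₀ • TT l m) ((s / s₀) • (Ψ a y).1) := cj_smul _ hc₀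
    rw [smul_smul, div_mul_cancel₀ s hs₀] at h1
    exact cj_trans (cj_symm h1) hc
  · obtain ⟨a, y, h1, h2, h3⟩ := hrk _ (hT hr) (fun h5 => hT5 (h5 ▸ hr))
    exact cov_cj hΨ ⟨a, y, rfl⟩ (nil_conj hNIL h1 h2 hX hX7 h3)

end cj

/-- MAIN: the images of homogeneous Lie polynomials on `g2`. -/
theorem main (K : Type*) [Field K] [IsAlgClosed K] [CharZero K] (hSIMPLE : SIMPLE_S K)
    (hONLY : ONLY_S K) (hCONS : CONS_S K) (hEXIST : EXIST_S K) (hLIFT : LIFT_S K)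
    (hNIL : NIL_S K) : MAIN_S K := by
  have : LieAlgebra.IsSimple K (g2 K) := hSIMPLE
  intro S
  constructor
  · intro h
    obtain ⟨h0, h1, h2, h3, m, b, f, hb, hf, hf', hf'', h4, h5⟩ := (cones S).1 h
    rcases hONLY S m b f hb hf hf' hf'' h0 h1 h2 h4 (fun g hg hS a => h5 g hg hS _ ⟨a, rfl⟩)
      with hS | hS | hS
    · exact Or.inl hS
    · exact Or.inr (Or.inl ⟨h0, h1, h2, h3, hS⟩)
    · exact Or.inr (Or.inr hS)
  · rintro (rfl | ⟨h0, h1, h2, h3, hS⟩ | ⟨l, m, T, hlm, hT, hT5, rfl⟩)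
    · refine (homogeneous_images _).2 ⟨0, 1, fun _ => 0, one_pos, ?_, ?_, ?_, ?_⟩
      · intro ψ
        have h0 : (fun _ : Fin 0 → g2 K => ψ 0) = 0 := by
          funext a
          exact map_zero ψ
        rw [h0]
        exact Subalgebra.zero_mem _
      · intro φ a
        exact (map_zero φ).symm
      · intro t a
        rw [smul_zero]
      · ext x
        simp
    · exact (dense_images_iff S hS).2 ⟨h0, h1, h2, h3⟩
    · obtain ⟨c0, c1, c2, c3⟩ := hCONS l m T hlm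
      obtain ⟨n, d, Ψ, hΨ, hcl, hex, hrk⟩ := hEXIST l m hlm
      obtain ⟨k, b, f, hb, hf, hf', hf'', hrg⟩ := hLIFT n d Ψ hΨ
      refine (cones _).2 ⟨c0, c1, c2, c3, k, b, f, hb, hf, hf', hf'', ?_, ?_⟩
      · rw [hrg]
        exact rs_subset hNIL hT hT5 hΨ hex hrk
      · intro g hg hS y hy
        rw [hrg] at hy
        obtain ⟨a, z, rfl⟩ := hy
        exact hcl g hg (fun Y hY => hS Y (Or.inr (Or.inl hY))) a z

end Pool.Agent.Lib.MP_d55432_al.G2.H47
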